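import Mathlib
import Pool.Agent.H90.TgDefs
import Pool.Agent.H90.UbDefs
import Pool.Agent.H90.UbD
import Pool.Agent.H90.TgH

namespace Pool.Agent.Results.MP_4953ed_an.AllInfinite

open Pool.Agent.H90.Tg

theorem result : (∃ M : LMod C(StoneCech ℕ, ℂ), Irr M ∧ ∀ n : ℕ, ¬HasRes M n) ∧
    ∀ n : ℕ, ¬BHasRes C(StoneCech ℕ, ℂ) n := by
  obtain ⟨W, h, u, hu⟩ := pre_sc
  have := CompactT2.Projective.extremallyDisconnected (StoneCech.projective (X := ℕ))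
  have := Filter.NeBot.mono (h u hu) inf_le_left
  exact ⟨⟨_, Pool.Agent.H90.Ub.pt_irr u, Pool.Agent.H90.Ub.ds_inf u⟩, db_inf h ⟨u, hu⟩⟩

end Pool.Agent.Results.MP_4953ed_an.AllInfinite
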